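import Mathlib
import Pool.Agent.Lib.MP_243357_co.Limit

/-!
MP_243357_co, Q1: the limit of `log T(N) / N ^ 2` over the admissible side lengths exists.
The definitions `up`, `dn`, `IsSmall`, `IsTiling`, `Delta`, `tau`, `T` and `Admissible` are in
`Pool.Agent.Lib.MP_243357_co.Basic`; `Rect` and `tauR` are in `Pool.Agent.Lib.MP_243357_co.Rect`.
-/

open Filter Topology

namespace Pool.Agent.Results.MP_243357_co.LimitExists

open Pool.Agent.Lib.MP_243357_co

/-- The limit `c` of `log T(N) / N ^ 2` over the admissible `N` exists and is positive; it is the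
supremum of `log T(N) / (N (N + 1))` over the admissible `N ≥ 1`, and the supremum of
`log tauR(a, b) / (2 a b)` over the parallelograms which have a tiling; and
`(log ρ) / 12 ≤ c ≤ (log φ) / 6` with the plastic number `ρ` and the golden ratio `φ`. -/
theorem result : ∃ c : ℝ, 0 < c ∧
    Tendsto (fun N : ℕ => Real.log (T N) / (N : ℝ) ^ 2) (atTop ⊓ 𝓟 {N | Admissible N}) (𝓝 c) ∧
    (∀ N : ℕ, Admissible N → 1 ≤ T N ∧ Real.log (T N) ≤ c * (N * (N + 1))) ∧
    IsLUB {x : ℝ | ∃ N : ℕ, 1 ≤ N ∧ Admissible N ∧ x = Real.log (T N) / (N * (N + 1))} c ∧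
    IsLUB {x : ℝ | ∃ a b : ℕ, 1 ≤ a ∧ 1 ≤ b ∧ 1 ≤ tauR a b ∧
      x = Real.log (tauR a b) / (2 * (a * b))} c ∧
    (∀ ρ : ℝ, ρ ^ 3 = ρ + 1 → Real.log ρ / 12 ≤ c) ∧
    c ≤ Real.log Real.goldenRatio / 6 :=
  ⟨cst, cst_pos, tendsto_cst, fun _ h => ⟨one_le_T h, log_T_le_cst h⟩, isLUB_cst, isLUB_rect,
    fun _ h => plastic_le h, cst_le⟩

end Pool.Agent.Results.MP_243357_co.LimitExists
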